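import Mathlib
import Pool.Agent.Lib_helper13.PL.KKT

/-!
# Removing a set from `B`
-/

set_option autoImplicit false
set_option linter.unusedSectionVars false

namespace Pool.Agent.NR

open Finset Pool.Agent.Lib_helper13.PL

variable {G : Type*} [AddCommGroup G] [DecidableEq G]

lemma TT_sum1 (R B : Finset G) : TT R B B = ∑ x ∈ R, ((B.card : ℤ) - dlt B x) := by
  have h : TT R B B = ∑ x ∈ R, TT {x} B B := by
    unfold TT
    refine Finset.sum_congr rfl fun x _ => ?_
    rw [Finset.sum_singleton]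
  rw [h]
  exact Finset.sum_congr rfl fun x _ => TT_single1 B x

lemma TT_sum3 (B : Finset G) (R : Finset G) :
    TT B B R = ∑ x ∈ R, ((B.card : ℤ) - dlt' B x) := by
  classical
  induction R using Finset.induction_on with
  | empty => simp [TT]
  | insert a R ha ih =>
    rw [Finset.sum_insert ha]
    have hd : Disjoint ({a} : Finset G) R := Finset.disjoint_singleton_left.mpr ha
    have hu : insert a R = {a} ∪ R := rfl
    rw [hu, TT_union3 _ _ hd, ih, TT_single3]

/-- **removal lemma**, exact form -/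
theorem FF_union (B R : Finset G) (hd : Disjoint B R) :
    FF (B ∪ R) = FF B + 4 * (∑ x ∈ R, (3 * (B.card : ℤ) - 2 * dlt B x - dlt' B x))
      + 4 * (TT R R B + TT R B R + TT B R R + TT R R R)
      - 3 * (2 * (B.card : ℤ) * R.card + (R.card : ℤ) ^ 2) := by
  unfold FF
  rw [Finset.card_union_of_disjoint hd, TT_union1 _ _ hd, TT_union2 _ _ hd, TT_union2 _ _ hd,
    TT_union3 _ _ hd, TT_union3 _ _ hd, TT_union3 _ _ hd, TT_union3 _ _ hd]
  have e1 := TT_sum1 R B
  have e2 := TT_sum3 B R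
  have e3 : TT B R B = TT R B B := TT_comm _ _ _
  have e4 : ∑ x ∈ R, (3 * (B.card : ℤ) - 2 * dlt B x - dlt' B x) =
      2 * ∑ x ∈ R, ((B.card : ℤ) - dlt B x) + ∑ x ∈ R, ((B.card : ℤ) - dlt' B x) := by
    rw [Finset.mul_sum, ← Finset.sum_add_distrib]
    exact Finset.sum_congr rfl fun x _ => by ring
  rw [e4, ← e1, ← e2, e3]
  push_cast
  ring

/-- **removal lemma** -/
theorem FF_union_le (B R : Finset G) (hd : Disjoint B R) :
    FF (B ∪ R) ≤ FF B + 6 * (B.card : ℤ) * R.card + 9 * (R.card : ℤ) ^ 2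
      - 4 * ∑ x ∈ R, (2 * dlt B x + dlt' B x) := by
  rw [FF_union B R hd]
  have h1 : TT R R B + TT R R R ≤ (R.card : ℤ) * R.card := by
    rw [← TT_union3 _ _ hd]
    exact TT_le12 _ _ _
  have h2 : TT R B R ≤ (R.card : ℤ) * R.card := TT_le13 _ _ _
  have h3 : TT B R R ≤ (R.card : ℤ) * R.card := TT_le23 _ _ _
  have e4 : ∑ x ∈ R, (3 * (B.card : ℤ) - 2 * dlt B x - dlt' B x) =
      3 * (B.card : ℤ) * R.card - ∑ x ∈ R, (2 * dlt B x + dlt' B x) := by
    have : ∑ x ∈ R, (3 * (B.card : ℤ) - 2 * dlt B x - dlt' B x) =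
        ∑ x ∈ R, (3 * (B.card : ℤ) - (2 * dlt B x + dlt' B x)) :=
      Finset.sum_congr rfl fun x _ => by ring
    rw [this, Finset.sum_sub_distrib, Finset.sum_const, nsmul_eq_mul]
    ring
  rw [e4]
  nlinarith [h1, h2, h3]

end Pool.Agent.NR
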