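import Mathlib
import Pool.Agent.Lib_helper13.PL.FOU2

/-!
# Third harmonic bounds for `δ` and `δ'`
-/

set_option autoImplicit false
set_option linter.unusedSectionVars false

namespace Pool.Agent.NR

open Finset Pool.Agent.Lib_helper13.PL

variable {G : Type*} [AddCommGroup G]

/-- test function for `δ` -/
theorem dlt_test [DecidableEq G] (B : Finset G) (x : G) (g : G → ℝ) (h0 : ∀ y, 0 ≤ g y)
    (h1 : ∀ y, g y ≤ 1) :
    ∑ y ∈ B, (g y - g (y + x)) ≤ ((dlt B x : ℤ) : ℝ) := by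
  classical
  have e : ((dlt B x : ℤ) : ℝ) = ∑ y ∈ B, (if y + x ∉ B then (1 : ℝ) else 0) := by
    unfold dlt
    rw [Finset.sum_boole]
    push_cast
    rfl
  -- `∑_{y ∈ B, y + x ∈ B} g (y + x) ≤ ∑_{y ∈ B} g y` minus those not reached
  rw [Finset.sum_sub_distrib, e]
  have h2 : ∑ y ∈ B, g (y + x) = ∑ y ∈ B.filter (fun y => y + x ∈ B), g (y + x) +
      ∑ y ∈ B.filter (fun y => ¬ (y + x ∈ B)), g (y + x) :=
    (Finset.sum_filter_add_sum_filter_not _ _ _).symm
  have h3 : 0 ≤ ∑ y ∈ B.filter (fun y => ¬ (y + x ∈ B)), g (y + x) :=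
    Finset.sum_nonneg fun y _ => h0 _
  have h4 : ∑ y ∈ B.filter (fun y => y + x ∈ B), g (y + x) =
      ∑ z ∈ B.filter (fun z => z - x ∈ B), g z := by
    refine Finset.sum_nbij' (fun y => y + x) (fun z => z - x) ?_ ?_ ?_ ?_ ?_
    · intro y hy
      simp only [Finset.mem_filter] at hy ⊢
      exact ⟨hy.2, by simpa using hy.1⟩
    · intro z hz
      simp only [Finset.mem_filter] at hz ⊢
      exact ⟨hz.2, by simpa using hz.1⟩
    · intro y _; simp
    · intro z _; simp
    · intro y _; rfl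
  have h5 : ∑ z ∈ B, g z = ∑ z ∈ B.filter (fun z => z - x ∈ B), g z +
      ∑ z ∈ B.filter (fun z => ¬ (z - x ∈ B)), g z :=
    (Finset.sum_filter_add_sum_filter_not _ _ _).symm
  have h6 : ∑ z ∈ B.filter (fun z => ¬ (z - x ∈ B)), g z ≤
      ((B.filter (fun z => ¬ (z - x ∈ B))).card : ℝ) := by
    calc _ ≤ ∑ z ∈ B.filter (fun z => ¬ (z - x ∈ B)), (1 : ℝ) :=
          Finset.sum_le_sum fun z _ => h1 z
      _ = _ := by simp
  have h7 : (B.filter (fun z => ¬ (z - x ∈ B))).card = (B.filter (fun y => ¬ (y + x ∈ B))).card := by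
    have e1 := Finset.card_filter_add_card_filter_not (s := B) (fun z => z - x ∈ B)
    have e2 := Finset.card_filter_add_card_filter_not (s := B) (fun y => y + x ∈ B)
    have e3 : (B.filter (fun z => z - x ∈ B)).card = (B.filter (fun y => y + x ∈ B)).card := by
      refine Finset.card_nbij' (fun z => z - x) (fun y => y + x) ?_ ?_ ?_ ?_
      · intro z hz
        simp only [Finset.coe_filter, Set.mem_ofPred_eq] at hz ⊢
        exact ⟨hz.2, by simpa using hz.1⟩
      · intro y hy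
        simp only [Finset.coe_filter, Set.mem_ofPred_eq] at hy ⊢
        exact ⟨hy.2, by simpa using hy.1⟩
      · intro z _; simp
      · intro y _; simp
    omega
  have h8 : ∑ y ∈ B, (if y + x ∉ B then (1 : ℝ) else 0) =
      ((B.filter (fun y => ¬ (y + x ∈ B))).card : ℝ) := by
    rw [Finset.sum_boole]
  rw [h8, ← h7]
  linarith

/-- test function for `δ'` -/
theorem dlt'_test [DecidableEq G] (B : Finset G) (x : G) (g : G → ℝ) (h0 : ∀ y, 0 ≤ g y)
    (h1 : ∀ y, g y ≤ 1) :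
    ∑ y ∈ B, (g y - g (x - y)) ≤ ((dlt' B x : ℤ) : ℝ) := by
  classical
  have e : ((dlt' B x : ℤ) : ℝ) = ((B.filter (fun y => ¬ (x - y ∈ B))).card : ℝ) := by
    unfold dlt'
    push_cast
    rfl
  rw [Finset.sum_sub_distrib, e]
  have h2 : ∑ y ∈ B, g (x - y) = ∑ y ∈ B.filter (fun y => x - y ∈ B), g (x - y) +
      ∑ y ∈ B.filter (fun y => ¬ (x - y ∈ B)), g (x - y) :=
    (Finset.sum_filter_add_sum_filter_not _ _ _).symm
  have h3 : 0 ≤ ∑ y ∈ B.filter (fun y => ¬ (x - y ∈ B)), g (x - y) :=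
    Finset.sum_nonneg fun y _ => h0 _
  have h4 : ∑ y ∈ B.filter (fun y => x - y ∈ B), g (x - y) =
      ∑ z ∈ B.filter (fun z => x - z ∈ B), g z := by
    refine Finset.sum_nbij' (fun y => x - y) (fun z => x - z) ?_ ?_ ?_ ?_ ?_
    · intro y hy
      simp only [Finset.mem_filter] at hy ⊢
      exact ⟨hy.2, by simpa using hy.1⟩
    · intro z hz
      simp only [Finset.mem_filter] at hz ⊢
      exact ⟨hz.2, by simpa using hz.1⟩
    · intro y _; simp
    · intro z _; simp
    · intro y _; rfl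
  have h5 : ∑ z ∈ B, g z = ∑ z ∈ B.filter (fun z => x - z ∈ B), g z +
      ∑ z ∈ B.filter (fun z => ¬ (x - z ∈ B)), g z :=
    (Finset.sum_filter_add_sum_filter_not _ _ _).symm
  have h6 : ∑ z ∈ B.filter (fun z => ¬ (x - z ∈ B)), g z ≤
      ((B.filter (fun z => ¬ (x - z ∈ B))).card : ℝ) := by
    calc _ ≤ ∑ z ∈ B.filter (fun z => ¬ (x - z ∈ B)), (1 : ℝ) :=
          Finset.sum_le_sum fun z _ => h1 z
      _ = _ := by simp
  linarith

/-- the odd trigonometric polynomial `sin v + sin 3v / 6`, `s = sin v` -/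
lemma poly_le (s : ℝ) (hs : |s| ≤ 1) : |(3 / 2) * s - (2 / 3) * s ^ 3| ≤ √3 / 2 := by
  have h3 : √3 ^ 2 = (3 : ℝ) := Real.sq_sqrt (by norm_num)
  have h30 : (0:ℝ) ≤ √3 := Real.sqrt_nonneg _
  have h31 : 1 ≤ √3 := by
    rw [show (1:ℝ) = √1 by simp]
    exact Real.sqrt_le_sqrt (by norm_num)
  rw [abs_le] at hs
  rw [abs_le]
  constructor
  · have : 0 ≤ (s + √3 / 2) ^ 2 * (√3 - s) := mul_nonneg (sq_nonneg _) (by linarith)
    nlinarith [this]
  · have : 0 ≤ (s - √3 / 2) ^ 2 * (√3 + s) := mul_nonneg (sq_nonneg _) (by linarith)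
    nlinarith [this]

/-- `P(w) = Im w + Im w³ / 6` -/
noncomputable def PP (w : ℂ) : ℝ := w.im + (w ^ 3).im / 6

lemma PP_le (w : ℂ) (hw : ‖w‖ = 1) : |PP w| ≤ √3 / 2 := by
  have h1 : w.re ^ 2 + w.im ^ 2 = 1 := by
    have := Complex.normSq_eq_norm_sq w
    rw [hw, Complex.normSq_apply] at this
    nlinarith
  have h2 : (w ^ 3).im = 3 * w.im - 4 * w.im ^ 3 := by
    have e : (w ^ 3).im = 3 * w.re ^ 2 * w.im - w.im ^ 3 := by
      simp only [pow_succ, pow_zero, one_mul, Complex.mul_im, Complex.mul_re]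
      ring
    rw [e, show w.re ^ 2 = 1 - w.im ^ 2 by linarith]
    ring
  have h3 : |w.im| ≤ 1 := by
    rw [abs_le]
    constructor <;> nlinarith [sq_nonneg w.re, sq_nonneg (w.im - 1), sq_nonneg (w.im + 1)]
  have h4 := poly_le w.im h3
  unfold PP
  rw [h2]
  convert h4 using 2
  ring

lemma PP_sub (w a : ℂ) :
    PP (w * a) - PP (w * (starRingEnd ℂ) a) = 2 * a.im * w.re + (a ^ 3).im * (w ^ 3).re / 3 := by
  unfold PP
  have e1 : (w * a) ^ 3 = w ^ 3 * a ^ 3 := by ring
  have e2 : (w * (starRingEnd ℂ) a) ^ 3 = w ^ 3 * (starRingEnd ℂ) (a ^ 3) := by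
    rw [mul_pow, map_pow]
  rw [e1, e2]
  generalize w ^ 3 = w3
  generalize a ^ 3 = a3
  simp only [Complex.mul_im, Complex.conj_re, Complex.conj_im]
  ring

lemma PP_conj (w : ℂ) : PP ((starRingEnd ℂ) w) = - PP w := by
  unfold PP
  rw [← map_pow, Complex.conj_im, Complex.conj_im]
  ring

/-- the point of the unit circle of angle `ang φ x` -/
noncomputable def ea {m : ℕ} (φ : G →+ ZMod m) (x : G) : ℂ :=
  Complex.exp ((ang φ x : ℝ) * Complex.I)

lemma norm_ea {m : ℕ} (φ : G →+ ZMod m) (x : G) : ‖ea φ x‖ = 1 := by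
  unfold ea; exact Complex.norm_exp_ofReal_mul_I _

lemma ea_im {m : ℕ} (φ : G →+ ZMod m) (x : G) : (ea φ x).im = Real.sin (ang φ x) := by
  unfold ea; exact Complex.exp_ofReal_mul_I_im _

lemma ea_re {m : ℕ} (φ : G →+ ZMod m) (x : G) : (ea φ x).re = Real.cos (ang φ x) := by
  unfold ea; exact Complex.exp_ofReal_mul_I_re _

lemma ea3 {m : ℕ} (φ : G →+ ZMod m) (x : G) :
    (ea φ x) ^ 3 = Complex.exp ((3 * ang φ x : ℝ) * Complex.I) := by
  unfold ea
  rw [← Complex.exp_nat_mul]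
  congr 1
  push_cast
  ring

lemma ea3_im {m : ℕ} (φ : G →+ ZMod m) (x : G) :
    ((ea φ x) ^ 3).im = Real.sin (3 * ang φ x) := by
  rw [ea3]; exact Complex.exp_ofReal_mul_I_im _

lemma ea_sq {χ : AddChar G ℂ} {m : ℕ} {φ : G →+ ZMod m} (h : Std χ φ) (x : G) :
    χ x = ea φ x ^ 2 := by
  rw [h.eq x]
  unfold ea
  rw [Complex.exp_mul_I]

lemma ea_mul_conj {m : ℕ} (φ : G →+ ZMod m) (x : G) :
    ea φ x * (starRingEnd ℂ) (ea φ x) = 1 := by
  rw [Complex.mul_conj, Complex.normSq_eq_norm_sq, norm_ea]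
  simp

lemma hat3_re (B : Finset G) (χ : AddChar G ℂ) :
    (hat B (3 • χ)).re = ∑ y ∈ B, ((χ y) ^ 3).re := by
  unfold hat
  rw [Complex.re_sum]
  refine Finset.sum_congr rfl fun y _ => ?_
  rw [AddChar.nsmul_apply]

/-- **third harmonic** for `δ` -/
theorem dlt_third [Finite G] [DecidableEq G] (B : Finset G) {χ : AddChar G ℂ} {m : ℕ}
    {φ : G →+ ZMod m} (h : Std χ φ) (x : G) :
    |Real.sin (ang φ x) * (hat B χ).re + Real.sin (3 * ang φ x) * (hat B (3 • χ)).re / 6| ≤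
      √3 / 2 * ((dlt B x : ℤ) : ℝ) := by
  have h30 : (0:ℝ) < √3 := Real.sqrt_pos.2 (by norm_num)
  have h3 : √3 * √3 = (3 : ℝ) := Real.mul_self_sqrt (by norm_num)
  set a := ea φ x with ha
  have hn : ∀ y : G, ‖χ y * (starRingEnd ℂ) a‖ = 1 := by
    intro y
    rw [norm_mul, RCLike.norm_conj, ha, norm_ea, mul_one]
    exact AddChar.norm_apply χ y
  have hshift : ∀ y : G, χ (y + x) * (starRingEnd ℂ) a = χ y * a := by
    intro y
    rw [AddChar.map_add_eq_mul, ea_sq h x, ← ha, mul_assoc, pow_two, mul_assoc, ha, ea_mul_conj,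
      mul_one]
  have key : ∀ e : ℝ, |e| = 1 →
      e * (Real.sin (ang φ x) * (hat B χ).re + Real.sin (3 * ang φ x) * (hat B (3 • χ)).re / 6) ≤
      √3 / 2 * ((dlt B x : ℤ) : ℝ) := by
    intro e he
    have h4 := dlt_test B x (fun y => 1 / 2 - e / √3 * PP (χ y * (starRingEnd ℂ) a)) ?_ ?_
    · have h5 : ∑ y ∈ B, ((1 / 2 - e / √3 * PP (χ y * (starRingEnd ℂ) a)) -
          (1 / 2 - e / √3 * PP (χ (y + x) * (starRingEnd ℂ) a))) =
          e / √3 * (2 * (Real.sin (ang φ x) * (hat B χ).re +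
            Real.sin (3 * ang φ x) * (hat B (3 • χ)).re / 6)) := by
        rw [hat3_re]
        unfold hat
        rw [Complex.re_sum, Finset.mul_sum, Finset.mul_sum, Finset.sum_div, ← Finset.sum_add_distrib,
          Finset.mul_sum, Finset.mul_sum]
        refine Finset.sum_congr rfl fun y _ => ?_
        rw [hshift y]
        have h6 := PP_sub (χ y) a
        rw [ea_im, ea3_im] at h6
        have h7 : PP (χ y * a) = PP (χ y * (starRingEnd ℂ) a) +
          (2 * Real.sin (ang φ x) * (χ y).re + Real.sin (3 * ang φ x) * (χ y ^ 3).re / 3) := by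
          linarith
        rw [h7]
        ring
      rw [h5] at h4
      have h8 : e / √3 * (2 * (Real.sin (ang φ x) * (hat B χ).re +
            Real.sin (3 * ang φ x) * (hat B (3 • χ)).re / 6)) * (√3 / 2) =
          e * (Real.sin (ang φ x) * (hat B χ).re +
            Real.sin (3 * ang φ x) * (hat B (3 • χ)).re / 6) := by
        field_simp
      rw [← h8]
      rw [mul_comm (√3 / 2)]
      exact mul_le_mul_of_nonneg_right h4 (by positivity)
    · intro y
      have h6 := PP_le _ (hn y)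
      have h7 : |e / √3 * PP (χ y * (starRingEnd ℂ) a)| ≤ 1 / 2 := by
        rw [abs_mul, abs_div, he, abs_of_pos h30]
        calc 1 / √3 * |PP (χ y * (starRingEnd ℂ) a)| ≤ 1 / √3 * (√3 / 2) :=
              mul_le_mul_of_nonneg_left h6 (by positivity)
          _ = 1 / 2 := by field_simp
      have := (abs_le.1 h7).2
      show 0 ≤ 1 / 2 - e / √3 * PP (χ y * (starRingEnd ℂ) a)
      linarith
    · intro y
      have h6 := PP_le _ (hn y)
      have h7 : |e / √3 * PP (χ y * (starRingEnd ℂ) a)| ≤ 1 / 2 := by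
        rw [abs_mul, abs_div, he, abs_of_pos h30]
        calc 1 / √3 * |PP (χ y * (starRingEnd ℂ) a)| ≤ 1 / √3 * (√3 / 2) :=
              mul_le_mul_of_nonneg_left h6 (by positivity)
          _ = 1 / 2 := by field_simp
      have := (abs_le.1 h7).1
      show 1 / 2 - e / √3 * PP (χ y * (starRingEnd ℂ) a) ≤ 1
      linarith
  rw [abs_le]
  have k1 := key 1 (by norm_num)
  have k2 := key (-1) (by norm_num)
  constructor <;> linarith

/-- **third harmonic** for `δ'` -/
theorem dlt'_third [Finite G] [DecidableEq G] (B : Finset G) {χ : AddChar G ℂ} {m : ℕ}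
    {φ : G →+ ZMod m} (h : Std χ φ) (x : G) :
    |((starRingEnd ℂ) (ea φ x) * hat B χ).im +
      ((starRingEnd ℂ) (ea φ x) ^ 3 * hat B (3 • χ)).im / 6| ≤
      √3 / 2 * ((dlt' B x : ℤ) : ℝ) := by
  have h30 : (0:ℝ) < √3 := Real.sqrt_pos.2 (by norm_num)
  have h3 : √3 * √3 = (3 : ℝ) := Real.mul_self_sqrt (by norm_num)
  set a := ea φ x with ha
  have hn : ∀ y : G, ‖χ y * (starRingEnd ℂ) a‖ = 1 := by
    intro y
    rw [norm_mul, RCLike.norm_conj, ha, norm_ea, mul_one]
    exact AddChar.norm_apply χ y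
  have hshift : ∀ y : G, χ (x - y) * (starRingEnd ℂ) a =
      (starRingEnd ℂ) (χ y * (starRingEnd ℂ) a) := by
    intro y
    rw [sub_eq_add_neg, AddChar.map_add_eq_mul, AddChar.map_neg_eq_conj, ea_sq h x, ← ha, map_mul,
      Complex.conj_conj]
    have : a ^ 2 * (starRingEnd ℂ) (χ y) * (starRingEnd ℂ) a =
        (a * (starRingEnd ℂ) a) * ((starRingEnd ℂ) (χ y) * a) := by ring
    rw [this, ha, ea_mul_conj, one_mul]
  have hsum : ((starRingEnd ℂ) a * hat B χ).im + ((starRingEnd ℂ) a ^ 3 * hat B (3 • χ)).im / 6 =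
      ∑ y ∈ B, PP (χ y * (starRingEnd ℂ) a) := by
    unfold hat
    rw [Finset.mul_sum, Finset.mul_sum, Complex.im_sum, Complex.im_sum, Finset.sum_div,
      ← Finset.sum_add_distrib]
    refine Finset.sum_congr rfl fun y _ => ?_
    unfold PP
    rw [AddChar.nsmul_apply, mul_pow, mul_comm ((starRingEnd ℂ) a), mul_comm ((starRingEnd ℂ) a ^ 3)]
  have key : ∀ e : ℝ, |e| = 1 →
      e * (((starRingEnd ℂ) a * hat B χ).im + ((starRingEnd ℂ) a ^ 3 * hat B (3 • χ)).im / 6) ≤
      √3 / 2 * ((dlt' B x : ℤ) : ℝ) := by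
    intro e he
    have hb : ∀ y : G, |e / √3 * PP (χ y * (starRingEnd ℂ) a)| ≤ 1 / 2 := by
      intro y
      have h6 := PP_le _ (hn y)
      rw [abs_mul, abs_div, he, abs_of_pos h30]
      calc 1 / √3 * |PP (χ y * (starRingEnd ℂ) a)| ≤ 1 / √3 * (√3 / 2) :=
            mul_le_mul_of_nonneg_left h6 (by positivity)
        _ = 1 / 2 := by field_simp
    have h4 := dlt'_test B x (fun y => 1 / 2 + e / √3 * PP (χ y * (starRingEnd ℂ) a)) ?_ ?_
    · have h5 : ∑ y ∈ B, ((1 / 2 + e / √3 * PP (χ y * (starRingEnd ℂ) a)) -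
          (1 / 2 + e / √3 * PP (χ (x - y) * (starRingEnd ℂ) a))) =
          e / √3 * (2 * (((starRingEnd ℂ) a * hat B χ).im +
            ((starRingEnd ℂ) a ^ 3 * hat B (3 • χ)).im / 6)) := by
        rw [hsum, Finset.mul_sum, Finset.mul_sum]
        refine Finset.sum_congr rfl fun y _ => ?_
        rw [hshift y, PP_conj]
        ring
      rw [h5] at h4
      have h8 : e / √3 * (2 * (((starRingEnd ℂ) a * hat B χ).im +
            ((starRingEnd ℂ) a ^ 3 * hat B (3 • χ)).im / 6)) * (√3 / 2) =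
          e * (((starRingEnd ℂ) a * hat B χ).im +
            ((starRingEnd ℂ) a ^ 3 * hat B (3 • χ)).im / 6) := by
        field_simp
      rw [← h8]
      rw [mul_comm (√3 / 2)]
      exact mul_le_mul_of_nonneg_right h4 (by positivity)
    · intro y
      have := (abs_le.1 (hb y)).1
      show 0 ≤ 1 / 2 + e / √3 * PP (χ y * (starRingEnd ℂ) a)
      linarith
    · intro y
      have := (abs_le.1 (hb y)).2
      show 1 / 2 + e / √3 * PP (χ y * (starRingEnd ℂ) a) ≤ 1
      linarith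
  rw [abs_le]
  have k1 := key 1 (by norm_num)
  have k2 := key (-1) (by norm_num)
  constructor <;> linarith

end Pool.Agent.NR
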